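import Mathlib
import Pool.Agent.Y868.TF.A9

/-!
# Chowla's conjecture for almost all binary forms of a given degree

Let `d ≥ 2`. For all but a proportion `(log X)^(-U)` of the binary forms of degree `d` with coefficients in
intervals of length `H ≥ X² (log X)^C`, the Liouville function cancels at the values of the form on the
square `[-X, X]²`, and on all rectangles in it, up to any power of `log X`; the same holds for products of
`k` forms and for all patterns of signs, with arbitrary bounded weights (for instance on the translated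
lattices of modulus at most a power of `log X`).
-/

set_option autoImplicit false

namespace Pool.Agent.Results.MP_d639b3_nt.AlmostAllBinaryForms

open Finset

/-- the Liouville function: `λ(n) = (-1)^Ω(|n|)` for `n ≠ 0`, and `λ(0) = 0` -/
noncomputable def lam (n : ℤ) : ℝ := if n = 0 then 0 else (-1) ^ ArithmeticFunction.cardFactors n.natAbs

/-- the value `∑ c_i u^i v^(d-i)` of the binary form with the coefficients `c_0, …, c_d` at `P = (u, v)` -/
def val (d : ℕ) (c : Fin (d + 1) → ℤ) (P : ℤ × ℤ) : ℤ := ∑ i : Fin (d + 1), c i * P.1 ^ (i : ℕ) * P.2 ^ (d - i)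

/-- the points `(u, v)` of the square `[-X, X]²` with `a < u ≤ b` and `a' < v ≤ b'` -/
noncomputable def rect (X : ℕ) (a b a' b' : ℤ) : Finset (ℤ × ℤ) :=
  (Icc (-(X : ℤ)) X ×ˢ Icc (-(X : ℤ)) X).filter (fun P => (a < P.1 ∧ P.1 ≤ b) ∧ (a' < P.2 ∧ P.2 ≤ b'))

/-- the `k`-tuples of forms of degree `d` whose coefficients lie in the intervals `(A_ij, A_ij + H]` -/
noncomputable def box (d k : ℕ) (A : Fin k → Fin (d + 1) → ℤ) (H : ℕ) : Finset (Fin k → Fin (d + 1) → ℤ) :=
  Fintype.piFinset (fun i => Fintype.piFinset (fun j => Ioc (A i j) (A i j + H)))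

/-- **Almost all binary forms.** Let `d ≥ 2` and `k, U, K ≥ 0`. There are `C` and `X₀` such that the
following holds for all `X ≥ X₀`, all `H` with `X² (log X)^C ≤ H ≤ X^K`, all integers `A_ij` with
`|A_ij| ≤ H (log X)^K`, and all functions `w_t`, `t < N ≤ (log X)^K`, on `ℤ²` with `|w_t| ≤ 1`. For all but
`H^((d+1)k) / (log X)^U` of the `k`-tuples of binary forms `f_1, …, f_k` of degree `d` with coefficients
in the intervals `(A_ij, A_ij + H]`, for all `t < N` and all rectangles `R` in `[-X, X]²`: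
`|∑ w_t(P) ∏_{i ∈ I} λ(f_i(P))| ≤ X² / (log X)^U` for every nonempty set `I` of indices, the sum being
over the points of `R`; and for all signs `ε_1, …, ε_k = ±1` the sum of the `w_t(P)` over the `P` in `R`
with `λ(f_i(P)) = ε_i` for all `i` differs from `2^(-k) ∑ w_t(P)` by at most `X² / (log X)^U`. -/
theorem result (d k U K : ℕ) (hd : 2 ≤ d) : ∃ C X₀ : ℕ, ∀ X : ℕ, X₀ ≤ X →
    ∀ H : ℕ, (X : ℝ) ^ 2 * Real.log X ^ C ≤ H → (H : ℝ) ≤ (X : ℝ) ^ K →
    ∀ A : Fin k → Fin (d + 1) → ℤ, (∀ i j, |(A i j : ℝ)| ≤ H * Real.log X ^ K) →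
    ∀ N : ℕ, (N : ℝ) ≤ Real.log X ^ K → ∀ w : ℕ → ℤ × ℤ → ℝ, (∀ t P, |w t P| ≤ 1) →
    ∃ Bad ⊆ box d k A H, (#Bad : ℝ) ≤ ((H : ℝ) ^ (d + 1)) ^ k / Real.log X ^ U ∧
      ∀ e ∈ box d k A H, e ∉ Bad → ∀ t < N, ∀ a b a' b' : ℤ, a ≤ b → a' ≤ b' →
        (∀ I : Finset (Fin k), I.Nonempty →
          |∑ P ∈ rect X a b a' b', w t P * ∏ i ∈ I, lam (val d (e i) P)| ≤ X ^ 2 / Real.log X ^ U) ∧
        ∀ ε : Fin k → ℝ, (∀ i, ε i = 1 ∨ ε i = -1) →
          |∑ P ∈ (rect X a b a' b').filter (fun P => ∀ i, lam (val d (e i) P) = ε i), w t P -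
            (1 / 2) ^ k * ∑ P ∈ rect X a b a' b', w t P| ≤ X ^ 2 / Real.log X ^ U :=
  Pool.Agent.Y868.TF.final d hd k U K

end Pool.Agent.Results.MP_d639b3_nt.AlmostAllBinaryForms
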