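import Pool.Agent.Y956.CP.Poly
import Pool.Agent.Y956.CP.Trf

/-!
# The Liouville function at the values of products of linear polynomials on two-sided progressions
-/

set_option autoImplicit false

namespace Pool.Agent.Results.MP_d639b3_nt.DilatedLinearFactors

open Finset Polynomial

/-- the Liouville function on the integers, `lam (-m) = lam m`, `lam 0 = 0` -/
noncomputable def lam (m : ℤ) : ℝ := if m = 0 then 0 else (-1) ^ (ArithmeticFunction.cardFactors m.natAbs)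

/-- the logarithmic average over the scales `Y < x ≤ W` -/
noncomputable def scales (φ : ℕ → ℝ) (Y W : ℕ) : ℝ :=
  (1 / Real.log ((W : ℝ) / Y)) * ∑ x ∈ Ioc Y W, (1 / (x : ℝ)) * φ x

/-- the sum of `lam (f v)` over the `v` in the progression `r` modulo `q` with `|v| ≤ x`, divided by `x` -/
noncomputable def ave (f : ℤ[X]) (q : ℕ) (r : ℤ) (x : ℕ) : ℝ :=
  (1 / (x : ℝ)) * ∑ v ∈ (Icc (-(x : ℤ)) x).filter (fun v => v ≡ r [ZMOD q]), lam (f.eval v)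

/-- the product of the displaced factor `a₀ T + d` and of the factors `a i * T + h * b i` -/
noncomputable def pol {k : ℕ} (a : Fin k → ℕ) (b : Fin k → ℤ) (a₀ h : ℕ) (d : ℤ) : ℤ[X] :=
  (C (a₀ : ℤ) * X + C d) * ∏ i, (C (a i : ℤ) * X + C ((h : ℤ) * b i))

open Classical in
/-- the exceptional pairs `(h, d)` for the scales between `Y` and `W` -/
noncomputable def exc {k : ℕ} (a : Fin k → ℕ) (b : Fin k → ℤ) (a₀ q : ℕ) (r : ℤ) (ε : ℝ) (S : Finset (ℕ × ℤ))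
    (Y W : ℕ) : Finset (ℕ × ℤ) :=
  S.filter (fun e => ε < scales (fun x => |ave (pol a b a₀ e.1 e.2) q r x|) Y W)

lemma lam_eq (m : ℤ) : lam m = Pool.Agent.Y956.CP.Poly.lam m := rfl

lemma lam_neg (m : ℤ) : lam (-m) = lam m := by
  unfold lam
  rw [Int.natAbs_neg]
  simp only [neg_eq_zero]

lemma eval_neg {k : ℕ} (a : Fin k → ℕ) (b : Fin k → ℤ) (a₀ h : ℕ) (d : ℤ) (t : ℕ) :
    lam ((pol a b a₀ h d).eval (-(t : ℤ))) =
      lam ((Pool.Agent.Y956.CP.Poly.pol a (fun i => -b i) a₀ h (-d)).eval (t : ℤ)) := by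
  have e1 := Pool.Agent.Y956.CP.Poly.eval_pol a (fun i => -b i) a₀ h (-d) t
  rw [lam_eq, lam_eq, e1]
  unfold pol
  rw [eval_mul, Pool.Agent.Y956.CP.Poly.lam_mul, eval_prod, Pool.Agent.Y956.CP.Poly.lam_prod]
  congr 1
  · have e2 : (C (a₀ : ℤ) * X + C d : ℤ[X]).eval (-(t : ℤ)) = -((a₀ : ℤ) * t + -d) := by
      simp
      ring
    rw [e2, ← lam_eq, lam_neg, lam_eq]
  · apply prod_congr rfl
    intro i _
    have e2 : (C (a i : ℤ) * X + C ((h : ℤ) * b i) : ℤ[X]).eval (-(t : ℤ)) = -((a i : ℤ) * t + h * -b i) := by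
      simp
      ring
    rw [e2, ← lam_eq, lam_neg, lam_eq]

lemma sum_two (G : ℤ → ℝ) (x : ℕ) : ∑ v ∈ Icc (-(x : ℤ)) x, G v = G 0 + ∑ t ∈ Icc 1 x, (G t + G (-(t : ℤ))) := by
  induction x with
  | zero => simp
  | succ x ih =>
    have e : Icc (-((x + 1 : ℕ) : ℤ)) ((x + 1 : ℕ) : ℤ) =
        insert (-((x + 1 : ℕ) : ℤ)) (insert ((x + 1 : ℕ) : ℤ) (Icc (-(x : ℤ)) x)) := by
      ext v
      simp only [mem_Icc, mem_insert]
      push_cast
      omega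
    rw [e, sum_insert, sum_insert, ih, sum_Icc_succ_top (by omega)]
    · ring
    · simp
    · simp only [mem_insert, mem_Icc]
      push_cast
      omega

lemma ave_le {k : ℕ} (a : Fin k → ℕ) (b : Fin k → ℤ) (a₀ q : ℕ) (r : ℤ) (h : ℕ) (d : ℤ) (x : ℕ) (hx : 1 ≤ x) :
    |ave (pol a b a₀ h d) q r x| ≤ (|Pool.Agent.Y956.CP.Poly.ave (Pool.Agent.Y956.CP.Poly.pol a b a₀ h d) q r x| +
      |Pool.Agent.Y956.CP.Poly.ave (Pool.Agent.Y956.CP.Poly.pol a (fun i => -b i) a₀ h (-d)) q (-r) x|) +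
      1 * (1 / (x : ℝ)) := by
  have hx0 : (0 : ℝ) < x := by exact_mod_cast hx
  set F : ℤ → ℝ := fun v => if v ≡ r [ZMOD q] then lam ((pol a b a₀ h d).eval v) else 0 with hF
  have h1 : ave (pol a b a₀ h d) q r x = (1 / (x : ℝ)) * F 0 + ((1 / (x : ℝ)) * ∑ t ∈ Icc 1 x, F t +
      (1 / (x : ℝ)) * ∑ t ∈ Icc 1 x, F (-(t : ℤ))) := by
    unfold ave
    rw [sum_filter, sum_two F x, sum_add_distrib]
    ring
  have h2 : (1 / (x : ℝ)) * ∑ t ∈ Icc 1 x, F t =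
      Pool.Agent.Y956.CP.Poly.ave (Pool.Agent.Y956.CP.Poly.pol a b a₀ h d) q r x := by
    unfold Pool.Agent.Y956.CP.Poly.ave
    rw [sum_filter]
    rfl
  have h3 : (1 / (x : ℝ)) * ∑ t ∈ Icc 1 x, F (-(t : ℤ)) =
      Pool.Agent.Y956.CP.Poly.ave (Pool.Agent.Y956.CP.Poly.pol a (fun i => -b i) a₀ h (-d)) q (-r) x := by
    unfold Pool.Agent.Y956.CP.Poly.ave
    rw [sum_filter]
    congr 1
    apply sum_congr rfl
    intro t _
    have e : (-(t : ℤ) ≡ r [ZMOD q]) ↔ ((t : ℤ) ≡ -r [ZMOD q]) := by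
      constructor
      · intro h
        have := Int.ModEq.neg h
        rwa [neg_neg] at this
      · intro h
        have := Int.ModEq.neg h
        rwa [neg_neg] at this
    simp only [hF, e, eval_neg]
    rfl
  have h4 : |(1 / (x : ℝ)) * F 0| ≤ 1 * (1 / (x : ℝ)) := by
    rw [abs_mul, abs_of_pos (by positivity : (0 : ℝ) < 1 / (x : ℝ)), mul_comm]
    apply mul_le_mul_of_nonneg_right _ (by positivity)
    simp only [hF]
    split_ifs
    · exact Pool.Agent.Y956.CP.Poly.lam_abs _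
    · simp
  rw [h1, h2, h3]
  have h5 := abs_add_le ((1 / (x : ℝ)) * F 0)
    (Pool.Agent.Y956.CP.Poly.ave (Pool.Agent.Y956.CP.Poly.pol a b a₀ h d) q r x +
      Pool.Agent.Y956.CP.Poly.ave (Pool.Agent.Y956.CP.Poly.pol a (fun i => -b i) a₀ h (-d)) q (-r) x)
  have h6 := abs_add_le (Pool.Agent.Y956.CP.Poly.ave (Pool.Agent.Y956.CP.Poly.pol a b a₀ h d) q r x)
    (Pool.Agent.Y956.CP.Poly.ave (Pool.Agent.Y956.CP.Poly.pol a (fun i => -b i) a₀ h (-d)) q (-r) x)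
  linarith

theorem result : ∀ (k A : ℕ) (ε : ℝ), 0 < ε → ∃ C : ℝ, ∃ H₀ : ℕ, ∀ (a : Fin k → ℕ) (a₀ : ℕ) (b : Fin k → ℤ),
    (∀ i, 1 ≤ a i ∧ a i ≤ A) → 1 ≤ a₀ → a₀ ≤ A → ∀ (q : ℕ) (r : ℤ), 1 ≤ q → q ≤ A →
    ∀ S : Finset (ℕ × ℤ), (∀ e ∈ S, 1 ≤ e.1) →
    (∀ e ∈ S, ∀ e' ∈ S, e ≠ e' → e.2 * (e'.1 : ℤ) ≠ e'.2 * (e.1 : ℤ)) →
    ∃ ω₀ : ℕ, ∀ Y W : ℕ, 1 ≤ Y → ω₀ * Y ≤ W →
      ∑ e ∈ exc a b a₀ q r ε S Y W, 1 / (e.1 : ℝ) ≤ C ∧
      ∀ H : ℕ, H₀ ≤ H → (((exc a b a₀ q r ε S Y W).filter (fun e => e.1 ≤ H)).card : ℝ) ≤ ε * H := by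
  classical
  intro k A ε hε
  obtain ⟨C, H₀, h⟩ := Pool.Agent.Y956.CP.Poly.main k A (ε / 4) (by positivity)
  refine ⟨C + C, H₀, fun a a₀ b ha ha₀ ha₀A q r hq hqA S hS1 hS2 => ?_⟩
  set σ : ℕ × ℤ → ℕ × ℤ := fun e => (e.1, -e.2) with hσ
  have hσi : Function.Injective σ := by
    intro e e' he
    simp only [hσ, Prod.mk.injEq, neg_inj] at he
    exact Prod.ext he.1 he.2
  obtain ⟨ω₁, h1⟩ := h a a₀ b ha ha₀ ha₀A q r hq hqA S hS1 hS2
  obtain ⟨ω₂, h2⟩ := h a a₀ (fun i => -b i) ha ha₀ ha₀A q (-r) hq hqA (S.image σ) (by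
    intro e he
    rw [mem_image] at he
    obtain ⟨e0, he0, rfl⟩ := he
    exact hS1 e0 he0) (by
    intro e he e' he' hne
    rw [mem_image] at he he'
    obtain ⟨e0, he0, rfl⟩ := he
    obtain ⟨e1, he1, rfl⟩ := he'
    have hne' : e0 ≠ e1 := fun h => hne (by rw [h])
    have h3 := hS2 e0 he0 e1 he1 hne'
    intro h4
    apply h3
    simp only [hσ] at h4
    linarith)
  set φ₁ : ℕ × ℤ → ℕ → ℝ := fun e x =>
    |Pool.Agent.Y956.CP.Poly.ave (Pool.Agent.Y956.CP.Poly.pol a b a₀ e.1 e.2) q r x| with hφ₁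
  set φ₂ : ℕ × ℤ → ℕ → ℝ := fun e x =>
    |Pool.Agent.Y956.CP.Poly.ave (Pool.Agent.Y956.CP.Poly.pol a (fun i => -b i) a₀ e.1 (-e.2)) q (-r) x| with hφ₂
  obtain ⟨n₀, h3⟩ := Pool.Agent.Y956.CP.Trf.wa_transfer S (fun e x => φ₁ e x + φ₂ e x)
    (fun e x => |ave (pol a b a₀ e.1 e.2) q r x|) 1 (by norm_num)
    (fun e _ x hx => ave_le a b a₀ q r e.1 e.2 x hx) ε hε
  refine ⟨max ω₁ (max ω₂ n₀), fun Y W hY hW => ?_⟩
  obtain ⟨h4, h5⟩ := h1 Y W hY ((Nat.mul_le_mul_right Y (le_max_left _ _)).trans hW)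
  obtain ⟨h6, h7⟩ := h2 Y W hY
    ((Nat.mul_le_mul_right Y ((le_max_left ω₂ n₀).trans (le_max_right _ _))).trans hW)
  have h8 := h3 Y W hY ((Nat.mul_le_mul_right Y ((le_max_right ω₂ n₀).trans (le_max_right _ _))).trans hW)
  set X₁ := Pool.Agent.Y956.CP.Poly.exc a b a₀ q r (ε / 4) S Y W with hX₁
  set X₂ := S.filter (fun e => ε / 4 < Pool.Agent.Y956.CB.WA (φ₂ e) Y W) with hX₂
  have him : X₂.image σ = Pool.Agent.Y956.CP.Poly.exc a (fun i => -b i) a₀ q (-r) (ε / 4) (S.image σ) Y W := by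
    rw [Pool.Agent.Y956.CP.Poly.exc, filter_image, hX₂]
    rfl
  have hsub : exc a b a₀ q r ε S Y W ⊆ X₁ ∪ X₂ := by
    intro e he
    unfold exc at he
    rw [mem_filter] at he
    have h9 := h8 e he.1 he.2
    rw [Pool.Agent.Y956.CP.Trf.WA_add] at h9
    rw [mem_union]
    by_contra hcon
    push Not at hcon
    have g1 : ¬ ε / 4 < Pool.Agent.Y956.CB.WA (φ₁ e) Y W := by
      intro hlt
      apply hcon.1
      rw [hX₁, Pool.Agent.Y956.CP.Poly.exc, mem_filter]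
      exact ⟨he.1, hlt⟩
    have g2 : ¬ ε / 4 < Pool.Agent.Y956.CB.WA (φ₂ e) Y W := by
      intro hlt
      apply hcon.2
      rw [hX₂, mem_filter]
      exact ⟨he.1, hlt⟩
    push Not at g1 g2
    linarith
  rw [← him] at h6 h7
  rw [sum_image hσi.injOn] at h6
  constructor
  · refine (sum_le_sum_of_subset_of_nonneg hsub fun _ _ _ => by positivity).trans ?_
    have h9 : ∑ e ∈ X₁ ∪ X₂, 1 / (e.1 : ℝ) ≤ ∑ e ∈ X₁, 1 / (e.1 : ℝ) + ∑ e ∈ X₂, 1 / (e.1 : ℝ) := by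
      rw [← sum_union_inter]
      have : 0 ≤ ∑ e ∈ X₁ ∩ X₂, 1 / (e.1 : ℝ) := sum_nonneg fun _ _ => by positivity
      linarith
    exact h9.trans (add_le_add h4 h6)
  · intro H hH
    have g1 := h5 H hH
    have g2 := h7 H hH
    rw [filter_image, card_image_of_injective _ hσi] at g2
    have g3 : (((exc a b a₀ q r ε S Y W).filter (fun e => e.1 ≤ H)).card : ℝ) ≤
        ((X₁.filter (fun e => e.1 ≤ H)).card : ℝ) + ((X₂.filter (fun e => e.1 ≤ H)).card : ℝ) := by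
      have g4 := card_le_card (filter_subset_filter (fun e : ℕ × ℤ => e.1 ≤ H) hsub)
      rw [filter_union] at g4
      exact_mod_cast g4.trans (card_union_le _ _)
    have g5 : ((X₂.filter (fun e => e.1 ≤ H)).card : ℝ) ≤ ε / 4 * H := g2
    have g6 : (0 : ℝ) ≤ H := by positivity
    nlinarith

end Pool.Agent.Results.MP_d639b3_nt.DilatedLinearFactors
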